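import Pool.Agent.L0h43.TD.PLe

/-!
# Triples `p, p - d', p - d` with almost primes: a lower bound for EVERY `d'` and almost all `d`

There is an absolute constant `c > 0` such that for every even `d' ≤ (log x) ^ A` and every window
`(u, u + H]` of length `H ≥ K log x` below `(log x) ^ A`: for all but `ε H` of the `d ≠ d'` of the window with
`𝔖({0, d', d}) ≠ 0` there are at least `c 𝔖({0, d', d}) x / (log x)^3` primes `p ≤ x` for which `p - d'` and
`p - d` have at most three prime factors, all of them at least `x ^ (1 / 9)`; the same for the sums over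
the `d` of the window with arbitrary weights in `[0, 1]`; and there are at least `c 𝔖({0, d'}) x / (log x)^2`
primes `p ≤ x` with `p - d'` such an almost prime and with at least `c H / log x` such almost primes among the
`p - d`, `d` in the window.

Method. In a class modulo a fixed primorial `W` the number of `n ≤ x` with `n + a` prime and `n + b` almost prime is
at least a constant times the expected one, for all `a ≠ b ≤ (log x) ^ A` (weighted linear sieve with universal
weights, theorem of Bombieri and Vinogradov). The third condition: the variance of a minorant for almost primes in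
the window over all the `n` with `n + a`, `n + b` free of small prime factors is small, uniformly in `a`, `b`.
-/

set_option autoImplicit false

open Finset Filter

namespace Pool.Agent.Results.MP_1039f5_nt.AlmostPrimesEveryFirstDifference

/-- `m > 1` has at most three prime factors (counted with multiplicity), all of them at least
`x ^ (1 / 9)` -/
def almostPrime (x : ℝ) (m : ℕ) : Prop :=
  1 < m ∧ m.primeFactorsList.length ≤ 3 ∧ ∀ p : ℕ, p.Prime → p ∣ m → x ^ (1 / 9 : ℝ) ≤ p

/-- the number of residue classes modulo `p` that meet `T` -/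
def nu (T : Finset ℕ) (p : ℕ) : ℕ := (T.image (· % p)).card

/-- the factor at `p` of the singular series of `T` -/
noncomputable def loc (T : Finset ℕ) (p : ℕ) : ℝ :=
  (1 - (nu T p : ℝ) / p) / (1 - 1 / (p : ℝ)) ^ T.card

/-- the singular series of `T` -/
noncomputable def 𝔖 (T : Finset ℕ) : ℝ := ∏' p : Nat.Primes, loc T p

open Classical in
/-- the number of primes `p ≤ x` with `p - d'` and `p - d` almost primes -/
noncomputable def count (x : ℝ) (d' d : ℕ) : ℕ :=
  ((range (⌊x⌋₊ + 1)).filter (fun p => p.Prime ∧ almostPrime x (p - d') ∧ almostPrime x (p - d))).card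

open Classical in
/-- the number of primes `p ≤ x` with `p - d'` almost prime for which at least `X` of the numbers `p - d` with
`u < d ≤ u + H` are almost primes -/
noncomputable def rich (x : ℝ) (d' u H : ℕ) (X : ℝ) : ℕ :=
  ((range (⌊x⌋₊ + 1)).filter (fun p => p.Prime ∧ almostPrime x (p - d') ∧
    X ≤ (((Ioc u (u + H)).filter (fun d => almostPrime x (p - d))).card : ℝ))).card

/-- `𝔖 {0, d', d} x / (log x) ^ 3` -/
noncomputable def model (x : ℝ) (d' d : ℕ) : ℝ := 𝔖 {0, d', d} * (x / Real.log x ^ 3)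

/-- `𝔖 {0, d'} x / (log x) ^ 2` -/
noncomputable def model2 (x : ℝ) (d' : ℕ) : ℝ := 𝔖 {0, d'} * (x / Real.log x ^ 2)

open Classical in
/-- the `d ≠ d'` in `I` with `𝔖 {0, d', d} ≠ 0` and `count x d' d < c * model x d' d` -/
noncomputable def below (x c : ℝ) (d' : ℕ) (I : Finset ℕ) : Finset ℕ :=
  I.filter (fun d => d ≠ d' ∧ 𝔖 {0, d', d} ≠ 0 ∧ (count x d' d : ℝ) < c * model x d' d)

open Pool.Agent.L0h43.TD

theorem CT_eq (T : Finset ℕ) : Pool.Agent.H387R2.Uni.CT T = 𝔖 T := rfl

theorem q3_eq (x : ℝ) (d' d : ℕ) : q3 x d' d = count x d' d := rfl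

theorem rich_eq (x : ℝ) (d' u H : ℕ) (X : ℝ) : Pool.Agent.L0h43.TD.rich x d' u H X = rich x d' u H X := rfl

/-- The product `𝔖 T` converges for every finite set `T`, and `𝔖 {0, d'} > 0` for even `d'`. There is an
absolute constant `c > 0` such that for every `ε > 0`:

(1) There is `K` such that for every `A ≥ 0`, all large real `x`, EVERY even `1 ≤ d' ≤ (log x) ^ A` and all
`u`, `H` with `K log x ≤ H`, `u + H ≤ (log x) ^ A` the following holds for the window `(u, u + H]`:
(a) for all weights `0 ≤ g ≤ 1` the sum of `g d * count x d' d` over the `d ≠ d'` of the window is at least `c` times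
the sum of `g d * model x d' d`, minus `ε (H / log x) model2 x d'`;
(b) `count x d' d ≥ c * model x d' d` for all but at most `ε H` of the `d ≠ d'` of the window with
`𝔖 {0, d', d} ≠ 0`;
(c) there are at least `c * model2 x d'` primes `p ≤ x` with `p - d'` almost prime such that at least `c H / log x` of
the `p - d` with `d` in the window are almost primes.

(2) For all large real `x` and EVERY even `2 ≤ d' ≤ (log x) ^ 2`, `count x d' d ≥ c * model x d' d`
for all but at most `ε (log x) ^ 2` of the `2 ≤ d ≤ (log x) ^ 2` with `d ≠ d'`, `𝔖 {0, d', d} ≠ 0`. -/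
theorem result :
    (∀ T : Finset ℕ, HasProd (fun p : Nat.Primes => loc T p) (𝔖 T)) ∧ (∀ d' : ℕ, Even d' → 0 < 𝔖 {0, d'}) ∧
    ∃ c : ℝ, 0 < c ∧ ∀ ε : ℝ, 0 < ε →
      (∃ K : ℝ, ∀ A : ℝ, 0 ≤ A → ∃ x₀ : ℝ, ∀ x : ℝ, x₀ ≤ x → ∀ d' : ℕ, 1 ≤ d' → Even d' →
        (d' : ℝ) ≤ Real.log x ^ A → ∀ u H : ℕ, K * Real.log x ≤ H → ((u + H : ℕ) : ℝ) ≤ Real.log x ^ A →
        (∀ g : ℕ → ℝ, (∀ d, 0 ≤ g d ∧ g d ≤ 1) →
          c * ∑ d ∈ Ioc u (u + H) \ {d'}, g d * model x d' d - ε * (H / Real.log x) * model2 x d' ≤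
            ∑ d ∈ Ioc u (u + H) \ {d'}, g d * (count x d' d : ℝ)) ∧
        ((below x c d' (Ioc u (u + H))).card : ℝ) ≤ ε * H ∧
        c * model2 x d' ≤ (rich x d' u H (c * (H / Real.log x)) : ℝ)) ∧
      ∃ x₀ : ℝ, ∀ x : ℝ, x₀ ≤ x → ∀ d' : ℕ, 2 ≤ d' → Even d' → (d' : ℝ) ≤ Real.log x ^ 2 →
        ((below x c d' (Icc 2 ⌊Real.log x ^ 2⌋₊)).card : ℝ) ≤ ε * Real.log x ^ 2 := by
  classical
  obtain ⟨c2, hc2, -, H2⟩ := L2
  obtain ⟨c3, hc3, -, H3⟩ := L3
  obtain ⟨c4, hc4, -, K4, hK4, h4⟩ := L4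
  obtain ⟨c, hc⟩ : ∃ c, c = min c2 (min c3 c4) := ⟨_, rfl⟩
  have hc0 : 0 < c := by rw [hc]; exact lt_min hc2 (lt_min hc3 hc4)
  have hcc2 : c ≤ c2 := by rw [hc]; exact min_le_left _ _
  have hcc3 : c ≤ c3 := by rw [hc]; exact (min_le_right _ _).trans (min_le_left _ _)
  have hcc4 : c ≤ c4 := by rw [hc]; exact (min_le_right _ _).trans (min_le_right _ _)
  have key : ∀ (x : ℝ) (d' : ℕ) (I : Finset ℕ), 0 ≤ x → 0 ≤ Real.log x → below x c d' I ⊆
      I.filter (fun d => d ≠ d' ∧ Pool.Agent.H387R2.Uni.CT {0, d', d} ≠ 0 ∧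
        (q3 x d' d : ℝ) < c3 * (Pool.Agent.H387R2.Uni.CT {0, d', d} * (x / Real.log x ^ 3))) := by
    intro x d' I hx hl d hd
    unfold below model at hd
    rw [mem_filter] at hd ⊢
    refine ⟨hd.1, hd.2.1, hd.2.2.1, ?_⟩
    rw [q3_eq]
    refine hd.2.2.2.trans_le ?_
    rw [← CT_eq]
    apply mul_le_mul_of_nonneg_right hcc3
    have := Pool.Agent.H387R2.Uni.CT_nonneg {0, d', d}
    positivity
  refine ⟨fun T => Pool.Agent.H387R2.Uni.CT_hasProd T, fun d' hd' => Pool.Agent.L0h43.TB.CT_even_pos hd', c, hc0,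
    fun ε hε => ⟨?_, ?_⟩⟩
  · obtain ⟨K2, hK2, h2⟩ := H2 ε hε
    obtain ⟨K3, hK3, h3⟩ := H3 ε hε
    refine ⟨max K2 (max K3 K4), fun A hA => ?_⟩
    obtain ⟨x₀, h⟩ := eventually_atTop.1 (((h2 A hA).and ((h3 A hA).and (h4 A hA))).and
      ((Real.tendsto_log_atTop.eventually_ge_atTop 1).and (eventually_ge_atTop 1)))
    refine ⟨x₀, fun x hx d' hd'1 hd'e hd'A u H hKH hHA => ?_⟩
    obtain ⟨⟨g2, g3, g4⟩, g5, g6⟩ := h x hx
    have hl : 0 < Real.log x := by linarith
    have hx0 : 0 < x := by linarith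
    have b2 : K2 * Real.log x ≤ H := (mul_le_mul_of_nonneg_right (le_max_left _ _) hl.le).trans hKH
    have b3 : K3 * Real.log x ≤ H :=
      (mul_le_mul_of_nonneg_right ((le_max_left _ _).trans (le_max_right _ _)) hl.le).trans hKH
    have b4 : K4 * Real.log x ≤ H :=
      (mul_le_mul_of_nonneg_right ((le_max_right _ _).trans (le_max_right _ _)) hl.le).trans hKH
    refine ⟨fun g hg => ?_, ?_, ?_⟩
    · refine le_trans ?_ (g2 d' hd'1 hd'e hd'A u H b2 hHA g (fun d => (hg d).1) (fun d => (hg d).2))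
      have e1 : ∑ d ∈ Ioc u (u + H) \ {d'}, g d * model x d' d =
          (∑ d ∈ Ioc u (u + H) \ {d'}, g d * Pool.Agent.H387R2.Uni.CT {0, d', d}) * (x / Real.log x ^ 3) := by
        rw [sum_mul]
        apply sum_congr rfl
        intro d _
        unfold model
        rw [CT_eq]
        ring
      have hG : 0 ≤ ∑ d ∈ Ioc u (u + H) \ {d'}, g d * Pool.Agent.H387R2.Uni.CT {0, d', d} :=
        sum_nonneg fun d _ => mul_nonneg (hg d).1 (Pool.Agent.H387R2.Uni.CT_nonneg _)
      rw [e1]
      unfold model2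
      rw [← CT_eq {0, d'}]
      have e : ε * (H / Real.log x) * (Pool.Agent.H387R2.Uni.CT {0, d'} * (x / Real.log x ^ 2)) =
          ε * (H : ℝ) * Pool.Agent.H387R2.Uni.CT {0, d'} * (x / Real.log x ^ 3) := by
        field_simp
      rw [e, ← mul_assoc, sub_mul]
      apply sub_le_sub_right
      apply mul_le_mul_of_nonneg_right _ (by positivity)
      exact mul_le_mul_of_nonneg_right hcc2 hG
    · refine le_trans ?_ (g3 d' hd'1 hd'e hd'A u H b3 hHA)
      exact_mod_cast card_le_card (key x d' _ hx0.le hl.le)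
    · have h5 := g4 d' hd'1 hd'e hd'A u H b4 hHA
      rw [rich_eq] at h5
      have h6 : (rich x d' u H (c4 * (H / Real.log x)) : ℝ) ≤ (rich x d' u H (c * (H / Real.log x)) : ℝ) := by
        rw [Nat.cast_le]
        unfold rich
        apply card_le_card
        intro p hp
        rw [mem_filter] at hp ⊢
        refine ⟨hp.1, hp.2.1, hp.2.2.1, le_trans ?_ hp.2.2.2⟩
        exact mul_le_mul_of_nonneg_right hcc4 (by positivity)
      refine le_trans ?_ (h5.trans h6)
      unfold model2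
      rw [← CT_eq]
      have := Pool.Agent.H387R2.Uni.CT_nonneg {0, d'}
      exact mul_le_mul_of_nonneg_right hcc4 (by positivity)
  · obtain ⟨K, hK, h⟩ := H3 ε hε
    obtain ⟨x₀, h1⟩ := eventually_atTop.1 ((h 2 (by norm_num)).and
      ((Real.tendsto_log_atTop.eventually_ge_atTop (K + 3)).and (eventually_ge_atTop 1)))
    refine ⟨x₀, fun x hx d' hd'2 hd'e hd'A => ?_⟩
    obtain ⟨g1, g2, g3⟩ := h1 x hx
    have hx0 : 0 ≤ x := by linarith
    have hl0 : 0 ≤ Real.log x := by linarith
    have hsub := key x d' (Icc 2 ⌊Real.log x ^ 2⌋₊) hx0 hl0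
    set l := Real.log x with hl
    obtain ⟨M, hM⟩ : ∃ M, M = ⌊l ^ 2⌋₊ := ⟨_, rfl⟩
    have hM1 : (M : ℝ) ≤ l ^ 2 := by rw [hM]; exact Nat.floor_le (by positivity)
    have hM2 : l ^ 2 < M + 1 := by rw [hM]; exact Nat.lt_floor_add_one _
    have hM3 : K * l ≤ M := by nlinarith
    have h2 := g1 d' (by omega) hd'e (by rw [Real.rpow_two]; exact hd'A) 0 M hM3 (by
      rw [zero_add, Real.rpow_two]; exact hM1)
    rw [← hM] at hsub ⊢
    have h3 : ε * (M : ℝ) ≤ ε * l ^ 2 := mul_le_mul_of_nonneg_left hM1 hε.le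
    refine le_trans ?_ (h2.trans h3)
    rw [Nat.cast_le, zero_add]
    apply card_le_card
    intro d hd
    have hd2 := hsub hd
    rw [mem_filter, mem_Icc] at hd2
    rw [mem_filter, mem_Ioc]
    exact ⟨⟨by omega, hd2.1.2⟩, hd2.2⟩

end Pool.Agent.Results.MP_1039f5_nt.AlmostPrimesEveryFirstDifference
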