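import Pool.Agent.L0h43.TA.Tri3

/-!
# Prime triples: the prediction on average, in the range of the problem and in boxes of side `K log x`

On average over the pairs of even numbers `2 ≤ d' < d ≤ D`, for `D = (log x) ^ 2` and at every scale
`K log x ≤ D ≤ (log x) ^ A`, the number of prime triples `p, p - d', p - d` with `p ≤ x` is at least `5 / 12`
and at most `16 + ε` times the prediction; the upper bound `16 + ε` holds on average over every box with
sides of length at least `K log x`, and for almost all `d'` of the first side the average over `d` is, up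
to `ε`, at most `4` times the corresponding quotient for the pairs `p, p - d'`.

Method. (1) In almost all windows of length `K log x` there are at most `(4 + δ) K` primes (second moment
of a Selberg majorant of level `x ^ (1 / 2)` after a preliminary sieve); the same for the windows at a given
distance from almost all primes. (2) Upper bounds: products of two such windows, moments. (3) Lower
bound: the average over long windows (prime number theorem and convexity), written as an integral of the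
moments of the number of primes in `(p, p + u H]`, `u ≤ T`; by (1) these grow slowly in `u`.
-/

set_option autoImplicit false

open Finset Filter

namespace Pool.Agent.Results.MP_1039f5_nt.AverageOverBoxes

/-- the number of residue classes modulo `p` that meet `T` -/
def nu (T : Finset ℕ) (p : ℕ) : ℕ := (T.image (· % p)).card

/-- the factor at `p` of the singular series of `T` -/
noncomputable def loc (T : Finset ℕ) (p : ℕ) : ℝ :=
  (1 - (nu T p : ℝ) / p) / (1 - 1 / (p : ℝ)) ^ T.card

/-- the singular series of `T` -/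
noncomputable def 𝔖 (T : Finset ℕ) : ℝ := ∏' p : Nat.Primes, loc T p

/-- the number of primes `p ≤ x` with `p - d` and `p - d'` prime -/
noncomputable def pi3 (x : ℝ) (d' d : ℕ) : ℕ :=
  ((range (⌊x⌋₊ + 1)).filter (fun p => p.Prime ∧ (p - d).Prime ∧ (p - d').Prime)).card

/-- the number of primes `p ≤ x` with `p - d'` prime -/
noncomputable def pi2 (x : ℝ) (d' : ℕ) : ℕ :=
  ((range (⌊x⌋₊ + 1)).filter (fun p => p.Prime ∧ (p - d').Prime)).card

/-- the prediction for `pi3 x d' d` -/
noncomputable def model (x : ℝ) (d' d : ℕ) : ℝ := 𝔖 {0, d', d} * (x / Real.log x ^ 3)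

/-- the pairs of even numbers `2 ≤ d' < d ≤ D` -/
def pairs (D : ℕ) : Finset (ℕ × ℕ) :=
  (Icc 2 D ×ˢ Icc 2 D).filter (fun v => Even v.1 ∧ Even v.2 ∧ v.1 < v.2)

/-- the pairs `(d', d)` of different even numbers with `u < d' ≤ u + h` and `v < d ≤ v + h'` -/
def box (u h v h' : ℕ) : Finset (ℕ × ℕ) :=
  (Ioc u (u + h) ×ˢ Ioc v (v + h')).filter (fun y => Even y.1 ∧ Even y.2 ∧ y.1 ≠ y.2)

open Pool.Agent.L0h43.TA

theorem model_sum (x : ℝ) (S : Finset (ℕ × ℕ)) : ∑ y ∈ S, model x y.1 y.2 =
    (∑ y ∈ S, Pool.Agent.H387R2.Uni.CT {0, y.1, y.2}) * (x / Real.log x ^ 3) := by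
  unfold model
  rw [sum_mul]
  rfl

open Classical in
/-- The product `𝔖 T` converges for every finite set `T`. Let `ε > 0`.

(1) For all large real `x` the sum of `pi3 x d' d` over the pairs of even numbers `2 ≤ d' < d ≤ (log x) ^ 2`
is at least `5 / 12` and at most `16 + ε` times the sum of the predictions.

(2) There is `K > 0` such that for every `A` and all large `x` the same holds for the pairs of even
numbers `2 ≤ d' < d ≤ D`, for every integer `K log x ≤ D ≤ (log x) ^ A`.

(3) For every box with sides of length at least `K log x` inside `[0, (log x) ^ A] ^ 2` the sum of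
`pi3 x d' d` over the pairs of different even numbers of the box is at most `16 + ε` times the sum of the
predictions, and for all but at most `ε h` of the even numbers `d'` of the first side `(u, u + h]` the sum
of `pi3 x d' d` over the even `d ≠ d'` of the second side `(v, v + h']` is at most
`(4 + ε) (h' / log x) pi2 x d' + ε h' x / (log x) ^ 3`. -/
theorem result :
    (∀ T : Finset ℕ, HasProd (fun p : Nat.Primes => loc T p) (𝔖 T)) ∧
    ∀ ε : ℝ, 0 < ε →
      (∃ x₀ : ℝ, ∀ x : ℝ, x₀ ≤ x →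
        5 / 12 * ∑ y ∈ pairs ⌊Real.log x ^ 2⌋₊, model x y.1 y.2 ≤
          ∑ y ∈ pairs ⌊Real.log x ^ 2⌋₊, (pi3 x y.1 y.2 : ℝ) ∧
        ∑ y ∈ pairs ⌊Real.log x ^ 2⌋₊, (pi3 x y.1 y.2 : ℝ) ≤
          (16 + ε) * ∑ y ∈ pairs ⌊Real.log x ^ 2⌋₊, model x y.1 y.2) ∧
      ∃ K : ℝ, 0 < K ∧ ∀ A : ℝ, ∃ x₀ : ℝ, ∀ x : ℝ, x₀ ≤ x →
        (∀ D : ℕ, K * Real.log x ≤ D → (D : ℝ) ≤ Real.log x ^ A →
          5 / 12 * ∑ y ∈ pairs D, model x y.1 y.2 ≤ ∑ y ∈ pairs D, (pi3 x y.1 y.2 : ℝ) ∧
          ∑ y ∈ pairs D, (pi3 x y.1 y.2 : ℝ) ≤ (16 + ε) * ∑ y ∈ pairs D, model x y.1 y.2) ∧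
        ∀ u h v h' : ℕ, K * Real.log x ≤ h → K * Real.log x ≤ h' →
          ((u + h : ℕ) : ℝ) ≤ Real.log x ^ A → ((v + h' : ℕ) : ℝ) ≤ Real.log x ^ A →
          ∑ y ∈ box u h v h', (pi3 x y.1 y.2 : ℝ) ≤ (16 + ε) * ∑ y ∈ box u h v h', model x y.1 y.2 ∧
          (((Ioc u (u + h)).filter (fun d' => Even d' ∧
            (4 + ε) * (h' / Real.log x) * pi2 x d' + ε * (h' * (x / Real.log x ^ 3)) <
              ∑ d ∈ (Ioc v (v + h')).filter (fun d => Even d ∧ d ≠ d'), (pi3 x d' d : ℝ))).card : ℝ) ≤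
            ε * h := by
  refine ⟨fun T => Pool.Agent.H387R2.Uni.CT_hasProd T, fun ε hε => ?_⟩
  obtain ⟨K₁, hK₁, h1⟩ := region_real ε hε
  obtain ⟨K₂, hK₂, h2⟩ := box_real ε hε
  obtain ⟨K₃, hK₃, h3⟩ := almost_real ε hε
  refine ⟨?_, K₁ + K₂ + K₃, by linarith, fun A => ?_⟩
  · obtain ⟨x₀, h⟩ := eventually_atTop.1 ((h1 2).and (sq_range K₁ (by linarith)))
    refine ⟨x₀, fun x hx => ?_⟩
    obtain ⟨g1, g2, g3⟩ := h x hx
    rw [model_sum]
    exact g1 _ g2 g3
  · obtain ⟨x₀, h⟩ := eventually_atTop.1 ((((h1 A).and (h2 A)).and (h3 A)).and (eventually_ge_atTop 1))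
    refine ⟨x₀, fun x hx => ?_⟩
    obtain ⟨⟨⟨g1, g2⟩, g3⟩, g4⟩ := h x hx
    have hl : 0 ≤ Real.log x := Real.log_nonneg g4
    have b1 : ∀ {y : ℝ}, (K₁ + K₂ + K₃) * Real.log x ≤ y → K₁ * Real.log x ≤ y ∧ K₂ * Real.log x ≤ y ∧
        K₃ * Real.log x ≤ y := by
      intro y hy
      have c1 : 0 ≤ K₁ * Real.log x := mul_nonneg (by linarith) hl
      have c2 : 0 ≤ K₂ * Real.log x := mul_nonneg (by linarith) hl
      have c3 : 0 ≤ K₃ * Real.log x := mul_nonneg (by linarith) hl
      have e : (K₁ + K₂ + K₃) * Real.log x = K₁ * Real.log x + K₂ * Real.log x + K₃ * Real.log x := by ring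
      rw [e] at hy
      exact ⟨by linarith, by linarith, by linarith⟩
    refine ⟨fun D hD1 hD2 => ?_, fun u g v g' hg hg' hA hA' => ⟨?_, ?_⟩⟩
    · rw [model_sum]
      exact g1 D (b1 hD1).1 hD2
    · rw [model_sum]
      exact g2 u g v g' (b1 hg).2.1 (b1 hg').2.1 hA hA'
    · exact g3 u g v g' (b1 hg).2.2 (b1 hg').2.2 hA hA'

end Pool.Agent.Results.MP_1039f5_nt.AverageOverBoxes
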