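import Pool.Agent.L0h43.TG.GenR

/-!
# Prime triples and tuples of almost primes: every difference up to `x`, windows anywhere

There is an absolute constant `c > 0` such that for every `k` and EVERY even `b ≤ x`, in every window
`(v, v + H] ⊆ [0, x]` with `K log x ≤ H ≤ (log x) ^ A`: for almost all of the `k`-element sets `D` of the window
there are at least `c ^ (k + 1) 𝔖({0, b} ∪ D) x / (log x) ^ (k + 2)` primes `p ≤ x` for which `p + b` and all
`p + d` (`d ∈ D`) have at most three prime factors, all of them at least `x ^ (1 / 9)`. For `k = 1` (triples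
`p, p + b, p + d`) no upper bound for the length `H` of the window is needed: for instance all but `ε y` of the
`d ≤ y`, for `K log x ≤ y ≤ x`. Neither the difference `b` nor the position of the window is bounded by a power of
`log x`.

The second part starts from an arbitrary set `T ⊆ [0, x]` of shifts and an arbitrary set `S` of `n ≤ x` for which
every `n + t` (`t ∈ T`) is prime or has no prime factor below `x ^ (1 / 15)` (for instance `T = {0, b}` and `S` the set
of the primes `p` with `p + b` prime): for almost all `k`-element sets `D` of the window the number of the `n ∈ S` for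
which all `n + d` are almost primes is at least `(c (W / φ(W)) / log x) ^ k` times the number of the `n ∈ S` for which
all `n + d` are coprime to the primorial `W`, up to `ε 𝔖(T) x / (log x) ^ (#T + k)`.

Method. A window at `v` is moved to `0`: the shifts `t` become `t - v`, negative ones are replaced by large positive
numbers in the same classes modulo all the primes below `x ^ (1 / 16)`. The variance of a minorant for almost primes
in the window (weighted linear sieve with universal weights behind a preliminary sieve), over the tuples without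
small prime factors in a class modulo `W`, is small, uniformly in the shifts: the singular series enter only
through truncated products, and their average over a window of length `K log x` is controlled although the
differences may have up to `log x / log log x` prime factors. The full singular series is compared with the truncated one
for almost all `D`. For the pair: a lower bound for the `n ≤ x` in a class modulo `W` with `n` prime and `n + b`
almost prime, for every even `b ≤ x` (Chen's weighted sieve, theorem of Bombieri and Vinogradov).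
-/

set_option autoImplicit false

open Finset Filter

namespace Pool.Agent.Results.MP_1039f5_nt.EveryDifferenceEveryWindow

/-- `m` has at most three prime factors (counted with multiplicity), all of them at least
`x ^ (1 / 9)` -/
def almostPrime (x : ℝ) (m : ℕ) : Prop :=
  m.primeFactorsList.length ≤ 3 ∧ ∀ p : ℕ, p.Prime → p ∣ m → x ^ (1 / 9 : ℝ) ≤ p

open Classical in
/-- the number of primes `p ≤ x` for which `p + b` and all `p + d`, `d ∈ D`, are almost primes -/
noncomputable def count (x : ℝ) (b : ℕ) (D : Finset ℕ) : ℕ :=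
  ((Icc 1 ⌊x⌋₊).filter (fun p => p.Prime ∧ almostPrime x (p + b) ∧ ∀ d ∈ D, almostPrime x (p + d))).card

open Classical in
/-- the `1 ≤ n ≤ x` for which every `n + t`, `t ∈ T`, is a prime or has no prime factor below `x ^ (1 / 15)` -/
noncomputable def tuples (x : ℝ) (T : Finset ℕ) : Finset ℕ :=
  (Icc 1 ⌊x⌋₊).filter (fun n => ∀ t ∈ T,
    (n + t).Prime ∨ ∀ p : ℕ, p.Prime → p ∣ n + t → x ^ (1 / 15 : ℝ) ≤ p)

open Classical in
/-- the number of `n ∈ S` for which all `n + d`, `d ∈ D`, are almost primes -/
noncomputable def extending (x : ℝ) (S D : Finset ℕ) : ℕ :=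
  (S.filter (fun n => ∀ d ∈ D, almostPrime x (n + d))).card

open Classical in
/-- the number of `n ∈ S` for which all `n + d`, `d ∈ D`, are coprime to `W` -/
noncomputable def coprimes (W : ℕ) (S D : Finset ℕ) : ℕ :=
  (S.filter (fun n => ∀ d ∈ D, Nat.Coprime W (n + d))).card

/-- the number of residue classes modulo `p` that meet `T` -/
def nu (T : Finset ℕ) (p : ℕ) : ℕ := (T.image (· % p)).card

/-- the factor at `p` of the singular series of `T` -/
noncomputable def loc (T : Finset ℕ) (p : ℕ) : ℝ :=
  (1 - (nu T p : ℝ) / p) / (1 - 1 / (p : ℝ)) ^ T.card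

/-- the singular series of `T` -/
noncomputable def 𝔖 (T : Finset ℕ) : ℝ := ∏' p : Nat.Primes, loc T p

/-- `𝔖 T x / (log x) ^ #T` -/
noncomputable def model (x : ℝ) (T : Finset ℕ) : ℝ := 𝔖 T * (x / Real.log x ^ T.card)

open Classical in
/-- the `k`-element sets `D ⊆ I` with `b ∉ D` and `count x b D < c ^ (k + 1) * model x ({0, b} ∪ D)` -/
noncomputable def below (x c : ℝ) (b k : ℕ) (I : Finset ℕ) : Finset (Finset ℕ) :=
  ((I \ {b}).powersetCard k).filter (fun D => (count x b D : ℝ) < c ^ (k + 1) * model x ({0, b} ∪ D))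

open Classical in
/-- the `k`-element sets `D ⊆ I \ T` with
`extending x S D < (c (W / φ(W)) / log x) ^ k * coprimes W S D - ε * model x T / (log x) ^ k` -/
noncomputable def fewer (x c ε : ℝ) (W k : ℕ) (T S I : Finset ℕ) : Finset (Finset ℕ) :=
  ((I \ T).powersetCard k).filter (fun D => (extending x S D : ℝ) <
    (c * ((W : ℝ) / Nat.totient W) / Real.log x) ^ k * (coprimes W S D : ℝ) - ε * (model x T / Real.log x ^ k))

open Pool.Agent.L0h43.TD Pool.Agent.L0h43.TG

theorem CT_eq (T : Finset ℕ) : Pool.Agent.H387R2.Uni.CT T = 𝔖 T := rfl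

theorem WW_eq (w : ℕ) : Pool.Agent.H387R2.Uni.WW w = primorial w := rfl

theorem RU_eq (x : ℝ) (T : Finset ℕ) : RU x T = tuples x T := by
  unfold RU tuples
  congr!

theorem cX_eq (x : ℝ) (b : ℕ) (D : Finset ℕ) : cX x b D = count x b D := by
  unfold cX count
  congr!

theorem sdiff_zero (u H b : ℕ) : Ioc u (u + H) \ {0, b} = Ioc u (u + H) \ {b} := by
  ext t
  simp only [Finset.mem_sdiff, mem_Ioc, mem_insert, mem_singleton]
  omega

theorem card_un {u H b k : ℕ} {D : Finset ℕ} (hb : b ≠ 0) (hD : D ∈ (Ioc u (u + H) \ {b}).powersetCard k) :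
    ({0, b} ∪ D).card = k + 2 := by
  rw [mem_powersetCard] at hD
  rw [card_union_of_disjoint, card_pair (Ne.symm hb), hD.2, add_comm]
  rw [disjoint_left]
  intro t ht1 ht2
  have h := hD.1 ht2
  rw [Finset.mem_sdiff, mem_Ioc, mem_singleton] at h
  rw [mem_insert, mem_singleton] at ht1
  omega

/-- The product `𝔖 T` converges for every finite set `T` of natural numbers, and `𝔖 {0, b} > 0` for even `b`. There is
an absolute constant `c > 0` with the following properties.

(1) For all `k ∈ ℕ` and `ε > 0` there is `K` such that for every `A ≥ 0`, all large real `x`, EVERY even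
`1 ≤ b ≤ x` and all `v`, `H` with `K log x ≤ H`, `v + H ≤ x` and (if `k ≠ 1`) `H ≤ (log x) ^ A`:
`count x b D ≥ c ^ (k + 1) * model x ({0, b} ∪ D)` for all but at most `ε (H choose k)` of the `k`-element sets
`D ⊆ (v, v + H] \ {b}`.

(2) For all `j`, `k ∈ ℕ` and `ε > 0` there are `K` and `w₀` such that for all `w ≥ w₀` and `A ≥ 0`, all large `x`, ALL
sets `T` of `j` natural numbers `≤ x` with `𝔖 T ≠ 0`, all windows `I = (v, v + H]` with `K log x ≤ H`,
`v + H ≤ x` and (if `k ≠ 1`) `H ≤ (log x) ^ A`, and every set `S ⊆ tuples x T`, with `W` the product of the primes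
`p ≤ w`: `extending x S D ≥ (c (W / φ(W)) / log x) ^ k * coprimes W S D - ε * model x T / (log x) ^ k` for all but at
most `ε (H choose k)` of the `k`-element sets `D ⊆ I \ T`. -/
theorem result :
    (∀ T : Finset ℕ, HasProd (fun p : Nat.Primes => loc T p) (𝔖 T)) ∧ (∀ b : ℕ, Even b → 0 < 𝔖 {0, b}) ∧
    ∃ c : ℝ, 0 < c ∧
      (∀ (k : ℕ) (ε : ℝ), 0 < ε → ∃ K : ℝ, ∀ A : ℝ, 0 ≤ A → ∃ x₀ : ℝ, ∀ x : ℝ, x₀ ≤ x →
        ∀ b : ℕ, 1 ≤ b → Even b → (b : ℝ) ≤ x →
        ∀ v H : ℕ, K * Real.log x ≤ H → ((v + H : ℕ) : ℝ) ≤ x → (k = 1 ∨ (H : ℝ) ≤ Real.log x ^ A) →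
          ((below x c b k (Ioc v (v + H))).card : ℝ) ≤ ε * (H.choose k : ℝ)) ∧
      ∀ (j k : ℕ) (ε : ℝ), 0 < ε → ∃ K : ℝ, ∃ w₀ : ℕ, ∀ w : ℕ, w₀ ≤ w → ∀ A : ℝ, 0 ≤ A → ∃ x₀ : ℝ,
        ∀ x : ℝ, x₀ ≤ x → ∀ T : Finset ℕ, T.card = j → (∀ t ∈ T, (t : ℝ) ≤ x) → 𝔖 T ≠ 0 →
        ∀ v H : ℕ, K * Real.log x ≤ H → ((v + H : ℕ) : ℝ) ≤ x → (k = 1 ∨ (H : ℝ) ≤ Real.log x ^ A) →
        ∀ S ⊆ tuples x T,
          ((fewer x c ε (primorial w) k T S (Ioc v (v + H))).card : ℝ) ≤ ε * (H.choose k : ℝ) := by
  classical
  obtain ⟨c, hc0, hc1, H1, H2⟩ := finU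
  refine ⟨fun T => Pool.Agent.H387R2.Uni.CT_hasProd T, fun b hb => Pool.Agent.L0h43.TB.CT_even_pos hb, c, hc0, ?_, ?_⟩
  · intro k ε hε
    obtain ⟨K, hK, h1⟩ := H1 k ε hε
    refine ⟨K, fun A hA => ?_⟩
    obtain ⟨x₀, h⟩ := eventually_atTop.1 (h1 A hA)
    refine ⟨x₀, fun x hx b hb1 hbe hbx v H hKH hHx hk => ?_⟩
    have hb0 : b ≠ 0 := by omega
    have r2 := h x hx b hb1 hbx hbe v H hHx hKH hk
    refine le_trans ?_ r2
    rw [Nat.cast_le]
    apply card_le_card
    intro D hD
    unfold below at hD
    unfold bdX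
    rw [mem_filter] at hD ⊢
    rw [sdiff_zero]
    refine ⟨hD.1, ?_⟩
    rw [cX_eq, CT_eq]
    have h3 := hD.2
    unfold model at h3
    rw [card_un hb0 hD.1] at h3
    exact h3
  · intro j k ε hε
    obtain ⟨K, hK, w₀, h1⟩ := H2 j k ε hε
    refine ⟨K, w₀, fun w hw A hA => ?_⟩
    obtain ⟨x₀, h⟩ := eventually_atTop.1 ((h1 w hw A hA).and
      (Real.tendsto_log_atTop.eventually_ge_atTop 1))
    refine ⟨x₀, fun x hx T hTj hTx hT0 v H hKH hHx hk S hS => ?_⟩
    obtain ⟨g1, g2⟩ := h x hx
    have hl : 0 < Real.log x := by linarith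
    have h2 := g1 T hTj hT0 hTx v H hHx hKH hk S (by rw [RU_eq]; exact hS)
    refine le_trans ?_ h2
    rw [Nat.cast_le]
    apply card_le_card
    intro D hD
    unfold fewer at hD
    unfold bdSU
    rw [mem_filter] at hD ⊢
    refine ⟨hD.1, ?_⟩
    rw [WW_eq]
    have e1 : ((S.filter (fun n => ∀ d ∈ D, APx x (n + d))).card : ℝ) = (extending x S D : ℝ) := by
      unfold extending
      congr!
    have e2 : ((S.filter (fun n => ∀ d ∈ D, Nat.Coprime (primorial w) (n + d))).card : ℝ) =
        (coprimes (primorial w) S D : ℝ) := by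
      unfold coprimes
      congr!
    rw [e1, e2]
    have e3 : ε * (model x T / Real.log x ^ k) =
        ε * Pool.Agent.H387R2.Uni.CT T * (x / Real.log x ^ (j + k)) := by
      unfold model
      rw [CT_eq, hTj, pow_add]
      field_simp
    rw [← e3]
    exact hD.2

end Pool.Agent.Results.MP_1039f5_nt.EveryDifferenceEveryWindow
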