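import Pool.Agent.L0h43.TB.BDh

/-!
# Prime triples: an upper bound for EVERY first difference `d'` and almost all second differences

For every even `d' ≤ (log x) ^ A` and every window `(u, u + H]` of length `H ≥ K log x` below
`(log x) ^ A`: all but `ε H` of the `d` of the window satisfy `π₃(x, d', d) ≤ (16 + ε) 𝔖({0, d', d}) x / (log x)^3`
(or `𝔖 = 0`); the sum of `π₃(x, d', d)` over the `d` of the window is at most `(4 + ε) H / log x` times the number
`π₂(x, d')` of prime pairs with difference `d'`, up to `ε` times its expected size; and for all but `ε` times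
the expected number of prime pairs `p, p - d'` there are at most `(4 + ε) H / log x` primes `p - d` with `d` in
the window.

Method. The primes among the `n + h`, `h` in the window, have a Selberg majorant whose variance over
the integers `n` for which `n + a`, `n + b` have no small prime factor is small, uniformly in `a`, `b`
(level `x ^ (1 / 2)` for the pairs `h, h'`; the pair `a, b` needs no sieve weights of its own). This gives the
second and the third statement. For the first one the argument is used with weights in every class modulo a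
fixed primorial, where the number of prime pairs is at most `4 + ε` times the expected one (Selberg's sieve
and the theorem of Bombieri and Vinogradov).
-/

set_option autoImplicit false

open Finset Filter

namespace Pool.Agent.Results.MP_1039f5_nt.EveryFirstDifference

/-- the number of residue classes modulo `p` that meet `T` -/
def nu (T : Finset ℕ) (p : ℕ) : ℕ := (T.image (· % p)).card

/-- the factor at `p` of the singular series of `T` -/
noncomputable def loc (T : Finset ℕ) (p : ℕ) : ℝ :=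
  (1 - (nu T p : ℝ) / p) / (1 - 1 / (p : ℝ)) ^ T.card

/-- the singular series of `T` -/
noncomputable def 𝔖 (T : Finset ℕ) : ℝ := ∏' p : Nat.Primes, loc T p

/-- the number of primes `p ≤ x` with `p - d` and `p - d'` prime -/
noncomputable def pi3 (x : ℝ) (d' d : ℕ) : ℕ :=
  ((range (⌊x⌋₊ + 1)).filter (fun p => p.Prime ∧ (p - d).Prime ∧ (p - d').Prime)).card

/-- the number of primes `p ≤ x` with `p - d'` prime -/
noncomputable def pi2 (x : ℝ) (d' : ℕ) : ℕ :=
  ((range (⌊x⌋₊ + 1)).filter (fun p => p.Prime ∧ (p - d').Prime)).card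

open Classical in
/-- the number of primes `p ≤ x` with `p - d'` prime for which more than `X` of the numbers `p - d` with
`u < d ≤ u + H` are prime -/
noncomputable def crowded (x : ℝ) (d' u H : ℕ) (X : ℝ) : ℕ :=
  ((range (⌊x⌋₊ + 1)).filter (fun p => p.Prime ∧ (p - d').Prime ∧
    X < (((Ioc u (u + H)).filter (fun d => (p - d).Prime)).card : ℝ))).card

/-- the prediction for `pi3 x d' d` -/
noncomputable def model (x : ℝ) (d' d : ℕ) : ℝ := 𝔖 {0, d', d} * (x / Real.log x ^ 3)

/-- the prediction for `pi2 x d'` -/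
noncomputable def model2 (x : ℝ) (d' : ℕ) : ℝ := 𝔖 {0, d'} * (x / Real.log x ^ 2)

open Classical in
/-- the `d ≠ d'` in `I` with `𝔖 {0, d', d} ≠ 0` and `pi3 x d' d` more than `c` times the prediction -/
noncomputable def above (x c : ℝ) (d' : ℕ) (I : Finset ℕ) : Finset ℕ :=
  I.filter (fun d => d ≠ d' ∧ 𝔖 {0, d', d} ≠ 0 ∧ c * model x d' d < (pi3 x d' d : ℝ))

open Pool.Agent.L0h43.TB

theorem CT_eq (T : Finset ℕ) : Pool.Agent.H387R2.Uni.CT T = 𝔖 T := rfl

/-- The product `𝔖 T` converges for every finite set `T`, and `𝔖 {0, d'} > 0` for even `d'`. Let `ε > 0`.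

(1) There is `K` such that for every `A ≥ 0`, all large real `x`, EVERY even `1 ≤ d' ≤ (log x) ^ A` and all
`u`, `H` with `K log x ≤ H`, `u + H ≤ (log x) ^ A` the following holds for the window `(u, u + H]`:
(a) the sum of `pi3 x d' d` over the `d ≠ d'` of the window is at most `(4 + ε) (H / log x) pi2 x d'` plus
`ε H / log x` times the prediction for `pi2 x d'`;
(b) for all weights `0 ≤ g ≤ 1` the sum of `g d * pi3 x d' d` over the `d ≠ d'` of the window is at most `16`
times the sum of `g d` times the predictions, plus `ε H / log x` times the prediction for `pi2 x d'`;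
(c) `pi3 x d' d` is at most `16 + ε` times the prediction for all but at most `ε H` of the `d ≠ d'` of the
window with `𝔖 {0, d', d} ≠ 0`;
(d) for all but at most `ε` times the predicted number of the primes `p ≤ x` with `p - d'` prime there are at
most `(4 + ε) H / log x` primes `p - d` with `d` in the window.

(2) For all large real `x` and EVERY even `2 ≤ d' ≤ (log x) ^ 2`, `pi3 x d' d` is at most `16 + ε` times the
prediction for all but at most `ε (log x) ^ 2` of the `2 ≤ d ≤ (log x) ^ 2` with `d ≠ d'`, `𝔖 {0, d', d} ≠ 0`. -/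
theorem result :
    (∀ T : Finset ℕ, HasProd (fun p : Nat.Primes => loc T p) (𝔖 T)) ∧ (∀ d' : ℕ, Even d' → 0 < 𝔖 {0, d'}) ∧
    ∀ ε : ℝ, 0 < ε →
      (∃ K : ℝ, ∀ A : ℝ, 0 ≤ A → ∃ x₀ : ℝ, ∀ x : ℝ, x₀ ≤ x → ∀ d' : ℕ, 1 ≤ d' → Even d' →
        (d' : ℝ) ≤ Real.log x ^ A → ∀ u H : ℕ, K * Real.log x ≤ H → ((u + H : ℕ) : ℝ) ≤ Real.log x ^ A →
        ∑ d ∈ Ioc u (u + H) \ {d'}, (pi3 x d' d : ℝ) ≤
          (4 + ε) * (H / Real.log x) * pi2 x d' + ε * (H / Real.log x) * model2 x d' ∧
        (∀ g : ℕ → ℝ, (∀ d, 0 ≤ g d ∧ g d ≤ 1) →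
          ∑ d ∈ Ioc u (u + H) \ {d'}, g d * (pi3 x d' d : ℝ) ≤
            16 * ∑ d ∈ Ioc u (u + H) \ {d'}, g d * model x d' d + ε * (H / Real.log x) * model2 x d') ∧
        ((above x (16 + ε) d' (Ioc u (u + H))).card : ℝ) ≤ ε * H ∧
        (crowded x d' u H ((4 + ε) * (H / Real.log x)) : ℝ) ≤ ε * model2 x d') ∧
      ∃ x₀ : ℝ, ∀ x : ℝ, x₀ ≤ x → ∀ d' : ℕ, 2 ≤ d' → Even d' → (d' : ℝ) ≤ Real.log x ^ 2 →
        ((above x (16 + ε) d' (Icc 2 ⌊Real.log x ^ 2⌋₊)).card : ℝ) ≤ ε * Real.log x ^ 2 := by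
  classical
  have key : ∀ (x c : ℝ) (d' : ℕ) (I : Finset ℕ), above x c d' I =
      I.filter (fun d => d ≠ d' ∧ Pool.Agent.H387R2.Uni.CT {0, d', d} ≠ 0 ∧
        c * (Pool.Agent.H387R2.Uni.CT {0, d', d} * (x / Real.log x ^ 3)) < (p3 x d' d : ℝ)) := by
    intro x c d' I
    unfold above model
    rfl
  refine ⟨fun T => Pool.Agent.H387R2.Uni.CT_hasProd T, fun d' hd' => CT_even_pos hd', fun ε hε => ⟨?_, ?_⟩⟩
  · obtain ⟨K1, hK1, h1⟩ := E1 ε hε
    obtain ⟨K2, hK2, h2⟩ := E2 ε hε
    obtain ⟨K3, hK3, h3⟩ := E3 ε hε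
    obtain ⟨K4, hK4, h4⟩ := E4 ε hε
    refine ⟨max (max K1 K2) (max K3 K4), fun A hA => ?_⟩
    obtain ⟨x₀, h⟩ := eventually_atTop.1 ((((h1 A hA).and (h2 A hA)).and ((h3 A hA).and (h4 A hA))).and
      (Real.tendsto_log_atTop.eventually_ge_atTop 1))
    refine ⟨x₀, fun x hx d' hd'1 hd'e hd'A u H hKH hHA => ?_⟩
    obtain ⟨⟨⟨g1, g2⟩, g3, g4⟩, g5⟩ := h x hx
    have hl : 0 < Real.log x := by linarith
    have b1 : K1 * Real.log x ≤ H :=
      (mul_le_mul_of_nonneg_right ((le_max_left _ _).trans (le_max_left _ _)) hl.le).trans hKH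
    have b2 : K2 * Real.log x ≤ H :=
      (mul_le_mul_of_nonneg_right ((le_max_right _ _).trans (le_max_left _ _)) hl.le).trans hKH
    have b3 : K3 * Real.log x ≤ H :=
      (mul_le_mul_of_nonneg_right ((le_max_left _ _).trans (le_max_right _ _)) hl.le).trans hKH
    have b4 : K4 * Real.log x ≤ H :=
      (mul_le_mul_of_nonneg_right ((le_max_right _ _).trans (le_max_right _ _)) hl.le).trans hKH
    refine ⟨g1 d' hd'1 hd'e hd'A u H b1 hHA, fun g hg => ?_, ?_, g4 d' hd'1 hd'e hd'A u H b4 hHA⟩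
    · refine (g2 d' hd'1 hd'e hd'A u H b2 hHA g (fun d => (hg d).1) (fun d => (hg d).2)).trans (le_of_eq ?_)
      unfold model model2
      rw [add_mul, mul_assoc (16 : ℝ), sum_mul, ← CT_eq {0, d'}]
      have e : ε * (H : ℝ) * Pool.Agent.H387R2.Uni.CT {0, d'} * (x / Real.log x ^ 3) =
          ε * (H / Real.log x) * (Pool.Agent.H387R2.Uni.CT {0, d'} * (x / Real.log x ^ 2)) := by
        field_simp
      rw [e]
      congr 2
      apply sum_congr rfl
      intro d _
      rw [CT_eq]
      ring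
    · rw [key]
      exact g3 d' hd'1 hd'e hd'A u H b3 hHA
  · obtain ⟨K, hK, h⟩ := E3 ε hε
    obtain ⟨x₀, h1⟩ := eventually_atTop.1 ((h 2 (by norm_num)).and
      (Real.tendsto_log_atTop.eventually_ge_atTop (K + 3)))
    refine ⟨x₀, fun x hx d' hd'2 hd'e hd'A => ?_⟩
    obtain ⟨g1, g2⟩ := h1 x hx
    set l := Real.log x with hl
    obtain ⟨M, hM⟩ : ∃ M, M = ⌊l ^ 2⌋₊ := ⟨_, rfl⟩
    have hM1 : (M : ℝ) ≤ l ^ 2 := by rw [hM]; exact Nat.floor_le (by positivity)
    have hM2 : l ^ 2 < M + 1 := by rw [hM]; exact Nat.lt_floor_add_one _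
    have hM3 : K * l ≤ M := by nlinarith
    have h2 := g1 d' (by omega) hd'e (by rw [Real.rpow_two]; exact hd'A) 0 M hM3 (by
      rw [zero_add, Real.rpow_two]; exact hM1)
    rw [← hM, key]
    have h3 : ε * (M : ℝ) ≤ ε * l ^ 2 := mul_le_mul_of_nonneg_left hM1 hε.le
    refine le_trans ?_ (h2.trans h3)
    rw [Nat.cast_le, zero_add]
    apply card_le_card
    intro d hd
    rw [mem_filter, mem_Icc] at hd
    rw [mem_filter, mem_Ioc]
    exact ⟨⟨by omega, hd.1.2⟩, hd.2⟩

end Pool.Agent.Results.MP_1039f5_nt.EveryFirstDifference
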